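import Mathlib

set_option autoImplicit false

namespace Pool.Agent.H.MP_46ea74_gt

open MeasureTheory Set

theorem ip (x u : EuclideanSpace ℝ (Fin 2)) : inner ℝ x u = u 0 * x 0 + u 1 * x 1 := by
  simp [PiLp.inner_apply, Fin.sum_univ_two]

theorem nrm (u : EuclideanSpace ℝ (Fin 2)) : ‖u‖ = 1 ↔ u 0 ^ 2 + u 1 ^ 2 = 1 := by
  rw [← sq_eq_sq₀ (norm_nonneg u) zero_le_one, EuclideanSpace.real_norm_sq_eq]
  simp [Fin.sum_univ_two]

/-- polygon cut out by finitely many half planes -/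
def Pol {ι : Type} (a b h : ι → ℝ) : Set (EuclideanSpace ℝ (Fin 2)) :=
  {x | ∀ j, a j * x 0 + b j * x 1 ≤ h j}

theorem Pol.convex {ι : Type} (a b h : ι → ℝ) : Convex ℝ (Pol a b h) :=
  fun x hx y hy s t hs ht hst j => by
    have := add_le_add (mul_le_mul_of_nonneg_left (hx j) hs) (mul_le_mul_of_nonneg_left (hy j) ht)
    rw [← add_mul, hst, one_mul] at this
    simp only [PiLp.add_apply, PiLp.smul_apply, smul_eq_mul]
    linarith

theorem Pol.closed {ι : Type} (a b h : ι → ℝ) : IsClosed (Pol a b h) := by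
  simp only [Pol, ofPred_forall]
  exact isClosed_iInter fun _ => isClosed_le (by fun_prop) (by fun_prop)

theorem Pol.int {ι : Type} [Finite ι] {a b h : ι → ℝ} {x : EuclideanSpace ℝ (Fin 2)}
    (hx : ∀ j, a j * x 0 + b j * x 1 < h j) : x ∈ interior (Pol a b h) := by
  have : IsOpen {x : EuclideanSpace ℝ (Fin 2) | ∀ j, a j * x 0 + b j * x 1 < h j} := by
    simp only [ofPred_forall]
    exact isOpen_iInter_of_finite fun _ => isOpen_lt (by fun_prop) (by fun_prop)
  exact interior_maximal (fun y hy j => (hy j).le) this hx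

theorem Pol.compact {ι : Type} {a b h : ι → ℝ} (R : ℝ)
    (H : ∀ x ∈ Pol a b h, |x 0| ≤ R ∧ |x 1| ≤ R) : IsCompact (Pol a b h) := by
  refine Metric.isCompact_of_isClosed_isBounded (Pol.closed a b h)
    ((Metric.isBounded_closedBall (x := 0) (r := 2 * R)).subset fun x hx => ?_)
  obtain ⟨h0, h1⟩ := H x hx
  have := abs_nonneg (x 0)
  rw [mem_closedBall_zero_iff, ← sq_le_sq₀ (norm_nonneg x) (by linarith),
    EuclideanSpace.real_norm_sq_eq, Fin.sum_univ_two, ← sq_abs (x 0), ← sq_abs (x 1)]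
  nlinarith [abs_nonneg (x 1)]

theorem poly {ι : Type} [Fintype ι] {a b h : ι → ℝ} (α β : ι → ℝ) (q : ℝ)
    (hn : ∀ j, a j ^ 2 + b j ^ 2 = 1) (inj : ∀ i j, a i = a j → b i = b j → i = j)
    (hp : ∀ j, 0 < h j) (lt : ∀ j, α j < β j)
    (face : ∀ j τ, (∀ i, a i * (h j * a j - τ * b j) + b i * (h j * b j + τ * a j) ≤ h i) ↔
      α j ≤ τ ∧ τ ≤ β j) :
    ∫ x in frontier (Pol a b h), (sSup {t : ℝ | ∃ u : EuclideanSpace ℝ (Fin 2), ‖u‖ = 1 ∧
      (∀ y ∈ Pol a b h, inner ℝ y u ≤ inner ℝ x u) ∧ t = inner ℝ x u}) ^ q ∂(μH[1]) =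
      ∑ j, (β j - α j) * h j ^ q := by
  let P : ι → ℝ → EuclideanSpace ℝ (Fin 2) := fun j τ => !₂[h j * a j - τ * b j, h j * b j + τ * a j]
  have mem : ∀ j τ, P j τ ∈ Pol a b h ↔ α j ≤ τ ∧ τ ≤ β j := face
  have on : ∀ j τ, a j * P j τ 0 + b j * P j τ 1 = h j := fun j τ => by
    simp only [P, Matrix.cons_val]
    linear_combination h j * hn j
  have iso : ∀ j, Isometry (P j) := fun j => Isometry.of_dist_eq fun s t => by
    rw [EuclideanSpace.dist_eq, Fin.sum_univ_two, Real.dist_eq, Real.dist_eq, Real.dist_eq, sq_abs,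
      sq_abs, ← Real.sqrt_sq_eq_abs]
    congr 1
    simp only [P, Matrix.cons_val]
    linear_combination (s - t) ^ 2 * hn j
  have uniq : ∀ j, ∀ τ ∈ Ioo (α j) (β j), ∀ u : EuclideanSpace ℝ (Fin 2), ‖u‖ = 1 →
      (∀ y ∈ Pol a b h, inner ℝ y u ≤ inner ℝ (P j τ) u) → u 0 = a j ∧ u 1 = b j := by
    intro j τ hτ u hu H
    have h1 := H _ ((mem j (α j)).2 ⟨le_rfl, (lt j).le⟩)
    have h2 := H _ ((mem j (β j)).2 ⟨(lt j).le, le_rfl⟩)
    have h3 := H 0 fun i => by simpa using (hp i).le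
    simp only [ip, P, Matrix.cons_val, PiLp.zero_apply] at h1 h2 h3
    rw [nrm] at hu
    have e : u 1 * a j - u 0 * b j = 0 := le_antisymm
      (not_lt.1 fun c => by linarith [mul_pos c (sub_pos.2 hτ.2)])
      (not_lt.1 fun c => by linarith [mul_pos (neg_pos.2 c) (sub_pos.2 hτ.1)])
    have s : 0 ≤ u 0 * a j + u 1 * b j := not_lt.1 fun c => by
      have := congrArg (τ * ·) e
      simp only at this
      linarith [mul_pos (neg_pos.2 c) (hp j)]
    have s1 : u 0 * a j + u 1 * b j = 1 := by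
      rw [← sq_eq_sq₀ s zero_le_one]
      linear_combination (a j ^ 2 + b j ^ 2) * hu + hn j - (u 1 * a j - u 0 * b j) * e
    exact ⟨by linear_combination a j * s1 - b j * e - u 0 * hn j,
      by linear_combination b j * s1 + a j * e - u 1 * hn j⟩
  have sup : ∀ j τ, ∀ y ∈ Pol a b h, inner ℝ y !₂[a j, b j] ≤ inner ℝ (P j τ) !₂[a j, b j] :=
    fun j τ y hy => by simpa only [ip, Matrix.cons_val, on] using hy j
  have un : ∀ j, ‖!₂[a j, b j]‖ = 1 := fun j => (nrm _).2 (hn j)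
  have mO : ∀ j, MeasurableSet (P j '' Ioo (α j) (β j)) := fun j =>
    (iso j).isClosedEmbedding.measurableEmbedding.measurableSet_image.2 measurableSet_Ioo
  have vO : ∀ j, μH[1] (P j '' Ioo (α j) (β j)) = ENNReal.ofReal (β j - α j) := fun j => by
    rw [(iso j).hausdorffMeasure_image (.inl zero_le_one), hausdorffMeasure_real, Real.volume_Ioo]
  have ae : frontier (Pol a b h) =ᵐ[μH[1]] ⋃ j ∈ (Finset.univ : Finset ι), P j '' Ioo (α j) (β j) := by
    have := Measure.nullSingletonClass_hausdorff (EuclideanSpace ℝ (Fin 2)) one_pos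
    rw [(Pol.closed a b h).frontier_eq]
    refine ae_eq_set.2 ⟨measure_mono_null (t := range (fun j => P j (α j)) ∪ range fun j => P j (β j))
      (fun x hx => ?_) (((finite_range _).union (finite_range _)).measure_zero _), ?_⟩
    · obtain ⟨j, hj⟩ := not_forall.1 fun H => hx.1.2 (Pol.int H)
      have e : a j * x 0 + b j * x 1 = h j := le_antisymm (hx.1.1 j) (not_lt.1 hj)
      have ex : x = P j (a j * x 1 - b j * x 0) := by
        ext i
        fin_cases i
        · simp only [P, Fin.zero_eta, Matrix.cons_val]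
          linear_combination a j * e - x 0 * hn j
        · simp only [P, Fin.mk_one, Matrix.cons_val]
          linear_combination b j * e - x 1 * hn j
      obtain ⟨h1, h2⟩ := (mem j _).1 (ex ▸ hx.1.1)
      rcases h1.eq_or_lt with h1 | h1
      · exact .inl ⟨j, (congrArg (P j) h1).trans ex.symm⟩
      rcases h2.eq_or_lt with h2 | h2
      · exact .inr ⟨j, (congrArg (P j) h2.symm).trans ex.symm⟩
      exact (hx.2 (mem_iUnion₂.2 ⟨j, Finset.mem_univ j, _, ⟨h1, h2⟩, ex.symm⟩)).elim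
    · rw [sdiff_eq_empty.2, measure_empty]
      refine iUnion₂_subset fun j _ => ?_
      rintro _ ⟨τ, hτ, rfl⟩
      refine ⟨(mem j τ).2 ⟨hτ.1.le, hτ.2.le⟩, fun H => ?_⟩
      obtain ⟨ε, hε, hb⟩ := Metric.mem_nhds_iff.1 (mem_interior_iff_mem_nhds.1 H)
      have := sup j τ (P j τ + (ε / 2) • !₂[a j, b j]) (hb (by
        rw [mem_ball_iff_norm, add_sub_cancel_left, norm_smul, un, Real.norm_of_nonneg (by linarith)]
        linarith))
      rw [inner_add_left, real_inner_smul_left, real_inner_self_eq_norm_sq, un] at this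
      linarith
  have cst : ∀ j, EqOn (fun x => (sSup {t : ℝ | ∃ u : EuclideanSpace ℝ (Fin 2), ‖u‖ = 1 ∧
      (∀ y ∈ Pol a b h, inner ℝ y u ≤ inner ℝ x u) ∧ t = inner ℝ x u}) ^ q) (fun _ => h j ^ q)
      (P j '' Ioo (α j) (β j)) := by
    rintro j _ ⟨τ, hτ, rfl⟩
    have : {t : ℝ | ∃ u : EuclideanSpace ℝ (Fin 2), ‖u‖ = 1 ∧
        (∀ y ∈ Pol a b h, inner ℝ y u ≤ inner ℝ (P j τ) u) ∧ t = inner ℝ (P j τ) u} = {h j} := by
      ext t
      constructor
      · rintro ⟨u, hu, H, rfl⟩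
        obtain ⟨e0, e1⟩ := uniq j τ hτ u hu H
        rw [ip, e0, e1, on]
        rfl
      · rintro rfl
        exact ⟨_, un j, sup j τ, by rw [ip]; exact (on j τ).symm⟩
    simp only [this, csSup_singleton]
  rw [setIntegral_congr_set ae, integral_biUnion_finset _ (fun j _ => mO j)]
  · refine Finset.sum_congr rfl fun j _ => ?_
    rw [setIntegral_congr_fun (mO j) (cst j), setIntegral_const, measureReal_def, vO,
      ENNReal.toReal_ofReal (sub_pos.2 (lt j)).le, smul_eq_mul]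
  · intro i _ j _ hij
    refine disjoint_left.2 ?_
    rintro _ ⟨τ, hτ, rfl⟩ ⟨σ, hσ, e⟩
    obtain ⟨e0, e1⟩ := uniq j σ hσ _ (un i) (e ▸ sup i τ)
    exact hij (inj i j e0 e1)
  · intro j _
    exact (integrableOn_congr_fun (cst j) (mO j)).2
      (integrableOn_const (by rw [vO]; exact ENNReal.ofReal_ne_top))

end Pool.Agent.H.MP_46ea74_gt
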