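import Pool.Agent.H.MP_46ea74_gt.A

set_option autoImplicit false

namespace Pool.Agent.H.MP_46ea74_gt

open MeasureTheory Set
open scoped Pointwise

/-- the functional with exponent one half in the plane -/
noncomputable def S (A : Set (EuclideanSpace ℝ (Fin 2))) : ℝ :=
  ∫ x in frontier A, (sSup {t : ℝ | ∃ u : EuclideanSpace ℝ (Fin 2), ‖u‖ = 1 ∧
    (∀ y ∈ A, inner ℝ y u ≤ inner ℝ x u) ∧ t = inner ℝ x u}) ^ (1 / 2 : ℝ) ∂(μH[1])

/-- pencil shaped pentagon -/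
def K : Set (EuclideanSpace ℝ (Fin 2)) :=
  Pol ![-1, 0, 0, 3 / 5, 3 / 5] ![0, 1, -1, 4 / 5, -4 / 5] ![81, 3, 3, 81, 81]

/-- its mirror image -/
def L : Set (EuclideanSpace ℝ (Fin 2)) :=
  Pol ![1, 0, 0, -3 / 5, -3 / 5] ![0, 1, -1, 4 / 5, -4 / 5] ![81, 3, 3, 81, 81]

/-- their sum -/
def O : Set (EuclideanSpace ℝ (Fin 2)) :=
  Pol ![1, -1, 0, 0, 3 / 5, 3 / 5, -3 / 5, -3 / 5] ![0, 0, 1, -1, 4 / 5, -4 / 5, 4 / 5, -4 / 5]
    ![216, 216, 6, 6, 132, 132, 132, 132]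

theorem r81 : (81 : ℝ) ^ (1 / 2 : ℝ) = 9 := by
  rw [← Real.sqrt_eq_rpow, show (81 : ℝ) = 9 ^ 2 by norm_num, Real.sqrt_sq (by norm_num)]

theorem SK : S K = 144 + 424 * √3 := by
  rw [S, K, poly ![-3, -131, -81, -108, 103] ![3, 81, 131, -103, 108]]
  · simp only [Fin.sum_univ_five, Matrix.cons_val, r81, Real.sqrt_eq_rpow]
    ring
  · intro j; fin_cases j <;> simp <;> norm_num
  · intro i j; fin_cases i <;> fin_cases j <;> simp <;> norm_num
  · intro j; fin_cases j <;> simp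
  · intro j; fin_cases j <;> simp <;> norm_num
  · intro j τ
    simp only [Fin.forall_fin_succ]
    fin_cases j <;> simp <;> constructor <;> intro h <;> constructorm* _ ∧ _ <;> linarith

theorem SL : S L = 144 + 424 * √3 := by
  rw [S, L, poly ![-3, -81, -131, 103, -108] ![3, 131, 81, 108, -103]]
  · simp only [Fin.sum_univ_five, Matrix.cons_val, r81, Real.sqrt_eq_rpow]
    ring
  · intro j; fin_cases j <;> simp <;> norm_num
  · intro i j; fin_cases i <;> fin_cases j <;> simp <;> norm_num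
  · intro j; fin_cases j <;> simp
  · intro j; fin_cases j <;> simp <;> norm_num
  · intro j τ
    simp only [Fin.forall_fin_succ]
    fin_cases j <;> simp <;> constructor <;> intro h <;> constructorm* _ ∧ _ <;> linarith

theorem SO : S O = 12 * √216 + 848 * √6 + 20 * √132 := by
  rw [S, O, poly ![-3, -3, -212, -212, -171, 166, 166, -171] ![3, 3, 212, 212, -166, 171, 171, -166]]
  · simp only [Fin.sum_univ_eight, Matrix.cons_val, Real.sqrt_eq_rpow]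
    ring
  · intro j; fin_cases j <;> simp <;> norm_num
  · intro i j; fin_cases i <;> fin_cases j <;> simp <;> norm_num
  · intro j; fin_cases j <;> simp
  · intro j; fin_cases j <;> simp <;> norm_num
  · intro j τ
    simp only [Fin.forall_fin_succ]
    fin_cases j <;> simp <;> constructor <;> intro h <;> constructorm* _ ∧ _ <;> linarith

theorem memK (x : EuclideanSpace ℝ (Fin 2)) : x ∈ K ↔ -x 0 ≤ 81 ∧ x 1 ≤ 3 ∧ -x 1 ≤ 3 ∧
    3 / 5 * x 0 + 4 / 5 * x 1 ≤ 81 ∧ 3 / 5 * x 0 + -4 / 5 * x 1 ≤ 81 := by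
  simp [K, Pol, Fin.forall_fin_succ]

theorem memL (x : EuclideanSpace ℝ (Fin 2)) : x ∈ L ↔ x 0 ≤ 81 ∧ x 1 ≤ 3 ∧ -x 1 ≤ 3 ∧
    -3 / 5 * x 0 + 4 / 5 * x 1 ≤ 81 ∧ -3 / 5 * x 0 + -4 / 5 * x 1 ≤ 81 := by
  simp [L, Pol, Fin.forall_fin_succ]

theorem memO (x : EuclideanSpace ℝ (Fin 2)) : x ∈ O ↔ x 0 ≤ 216 ∧ -x 0 ≤ 216 ∧ x 1 ≤ 6 ∧ -x 1 ≤ 6 ∧
    3 / 5 * x 0 + 4 / 5 * x 1 ≤ 132 ∧ 3 / 5 * x 0 + -4 / 5 * x 1 ≤ 132 ∧
    -3 / 5 * x 0 + 4 / 5 * x 1 ≤ 132 ∧ -3 / 5 * x 0 + -4 / 5 * x 1 ≤ 132 := by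
  simp [O, Pol, Fin.forall_fin_succ]

theorem KL : K + L = O := by
  ext x
  rw [mem_add, memO]
  constructor
  · rintro ⟨y, hy, z, hz, rfl⟩
    rw [memK] at hy
    rw [memL] at hz
    simp only [PiLp.add_apply]
    constructorm* _ ∧ _ <;> linarith
  · intro h
    obtain ⟨c, hc⟩ : ∃ c : ℝ, c = 3 ∧ 3 ≤ x 1 ∨ c = -3 ∧ x 1 ≤ -3 ∨ c = x 1 ∧ -3 ≤ x 1 ∧ x 1 ≤ 3 := by
      rcases le_total 3 (x 1) with h1 | h1
      · exact ⟨_, .inl ⟨rfl, h1⟩⟩
      rcases le_total (x 1) (-3) with h2 | h2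
      · exact ⟨_, .inr (.inl ⟨rfl, h2⟩)⟩
      exact ⟨_, .inr (.inr ⟨rfl, h2, h1⟩)⟩
    rcases le_total 0 (x 0) with h0 | h0
    · refine ⟨x - !₂[81, c], ?_, !₂[81, c], ?_, sub_add_cancel _ _⟩
      · rw [memK]
        simp only [PiLp.sub_apply, Matrix.cons_val]
        rcases hc with hc | hc | hc <;> constructorm* _ ∧ _ <;> linarith
      · rw [memL]
        simp only [Matrix.cons_val]
        rcases hc with hc | hc | hc <;> constructorm* _ ∧ _ <;> linarith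
    · refine ⟨!₂[-81, c], ?_, x - !₂[-81, c], ?_, add_sub_cancel _ _⟩
      · rw [memK]
        simp only [Matrix.cons_val]
        rcases hc with hc | hc | hc <;> constructorm* _ ∧ _ <;> linarith
      · rw [memL]
        simp only [PiLp.sub_apply, Matrix.cons_val]
        rcases hc with hc | hc | hc <;> constructorm* _ ∧ _ <;> linarith

theorem main : S (K + L) ^ (2 / 3 : ℝ) < S K ^ (2 / 3 : ℝ) + S L ^ (2 / 3 : ℝ) := by
  have h2 : (1.414 : ℝ) < √2 := Real.lt_sqrt_of_sq_lt (by norm_num)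
  have h3 : √216 < 14.7 := Real.sqrt_lt_sqrt (by norm_num) (show (216 : ℝ) < 14.7 ^ 2 by norm_num)
    |>.trans_eq (Real.sqrt_sq (by norm_num))
  have h4 : √132 < 11.5 := Real.sqrt_lt_sqrt (by norm_num) (show (132 : ℝ) < 11.5 ^ 2 by norm_num)
    |>.trans_eq (Real.sqrt_sq (by norm_num))
  have h6 : √6 = √2 * √3 := by rw [← Real.sqrt_mul (by norm_num)]; norm_num
  have e : (2 * √2 : ℝ) ^ (2 / 3 : ℝ) = 2 := by
    rw [show (2 * √2 : ℝ) = √2 ^ (3 : ℕ) by rw [pow_succ, Real.sq_sqrt (by norm_num)],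
      ← Real.rpow_natCast, ← Real.rpow_mul (by positivity)]
    norm_num
  have e' : (2 * √2 * (144 + 424 * √3) : ℝ) ^ (2 / 3 : ℝ) = 2 * (144 + 424 * √3) ^ (2 / 3 : ℝ) := by
    rw [Real.mul_rpow (by positivity) (by positivity), e]
  rw [KL, SO, SK, SL, ← two_mul, ← e']
  refine Real.rpow_lt_rpow (by positivity) ?_ (by norm_num)
  rw [h6]
  linarith

end Pool.Agent.H.MP_46ea74_gt
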